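import Pool.Agent.SOR.Stmts2

/-!
# Squad SOR, row REL: the second order relation
-/

set_option autoImplicit false

open scoped BigOperators

noncomputable section

namespace Pool.Agent.SOR.H44

open Pool.Agent.SOR

/-! ## Membership modulo `R` -/

theorem mem_eq {R : Subring ℚ} {x y : ℚ} (h : x ∈ R) (e : y = x) : y ∈ R := e ▸ h

/-! ## Gauge transformations -/

section gauge

variable {Γ Y : Type} [Group Γ]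

/-- the gauge transformation of `ρ` by `f` -/
def gt (i : Γ →* Equiv.Perm Y) (f : Y → ℚ) (ρ : Γ → Y → ℚ) (g : Γ) (y : Y) : ℚ :=
  ρ g y + f (i g y) - f y

variable {R : Subring ℚ} {i : Γ →* Equiv.Perm Y} {ρ : Γ → Y → ℚ}

theorem gt_cr (h : Cr R i ρ) (f : Y → ℚ) : Cr R i (gt i f ρ) := by
  intro g k y
  refine mem_eq (h g k y) ?_
  unfold gt
  rw [map_mul, Equiv.Perm.mul_apply]
  ring

theorem gt_fix (f : Y → ℚ) {g : Γ} {y : Y} (h : i g y = y) : gt i f ρ g y = ρ g y := by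
  unfold gt
  rw [h]
  ring

theorem gt_hl {s : Γ} {μ : Y → ℚ} (h : Hl R i ρ s μ) (f : Y → ℚ) : Hl R i (gt i f ρ) s μ := by
  refine ⟨h.inv, ?_⟩
  intro y k hk
  rw [gt_fix f hk]
  exact h.hol y k hk

theorem gt_ex {s t : Γ} {p q : Y → ℚ} (h : Ex R i ρ s t p q) (f : Y → ℚ) :
    Ex R i (gt i f ρ) s t p q := by
  refine ⟨h.ps, h.pt, h.qs, h.qt, ?_⟩
  intro y k l hk
  rw [gt_fix f hk]
  exact h.ex y k l hk

theorem cr_inv (h : Cr R i ρ) (g : Γ) (y : Y) : ρ g⁻¹ y + ρ g (i g⁻¹ y) ∈ R := by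
  have h1 := h 1 1 y
  have h2 := h g g⁻¹ y
  rw [mul_inv_cancel] at h2
  rw [mul_one, map_one, Equiv.Perm.one_apply] at h1
  have h3 : ρ 1 y ∈ R := mem_eq (R.neg_mem h1) (by ring)
  exact mem_eq (R.sub_mem h3 h2) (by ring)

theorem ap_inv (i : Γ →* Equiv.Perm Y) (g : Γ) (y : Y) : i g (i g⁻¹ y) = y := by
  rw [← Equiv.Perm.mul_apply, ← map_mul, mul_inv_cancel, map_one, Equiv.Perm.one_apply]

theorem inv_iv {μ : Y → ℚ} {g : Γ} (h : ∀ y, μ (i g y) = μ y) (y : Y) : μ (i g⁻¹ y) = μ y := by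
  have h1 := h (i g⁻¹ y)
  rw [ap_inv] at h1
  exact h1.symm

theorem inv_mu {μ : Y → ℚ} {g k : Γ} (h : ∀ y, μ (i g y) = μ y) (h' : ∀ y, μ (i k y) = μ y)
    (y : Y) : μ (i (g * k) y) = μ y := by
  rw [map_mul, Equiv.Perm.mul_apply, h, h']

theorem inv_pw {μ : Y → ℚ} {g : Γ} (h : ∀ y, μ (i g y) = μ y) (n : ℕ) (y : Y) :
    μ (i (g ^ n) y) = μ y := by
  induction n generalizing y with
  | zero => rw [pow_zero, map_one, Equiv.Perm.one_apply]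
  | succ n ih => rw [pow_succ]; exact inv_mu ih h y

theorem inv_comm (h : Cr R i ρ) {μ : Y → ℚ} {a s : Γ} (hμ : ∀ y, ρ a y - μ y ∈ R)
    (hs : a * s = s * a) (hμs : ∀ y, μ (i s y) = μ y) (y : Y) :
    ρ s (i a y) - ρ s y ∈ R := by
  have h1 := h a s y
  have h2 := h s a y
  have h3 := hμ (i s y)
  have h4 := hμ y
  rw [hs] at h1
  rw [hμs] at h3
  exact mem_eq (R.add_mem (R.sub_mem h1 h2) (R.sub_mem h3 h4)) (by ring)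

theorem neg_of (h : Cr R i ρ) {μ : Y → ℚ} {a : Γ} (hμ : ∀ y, ρ a y - μ y ∈ R)
    (hμa : ∀ y, μ (i a y) = μ y) (y : Y) : ρ a⁻¹ y + μ y ∈ R := by
  have h1 := cr_inv h a y
  have h2 := hμ (i a⁻¹ y)
  rw [inv_iv hμa] at h2
  exact mem_eq (R.sub_mem h1 h2) (by ring)

theorem transport (h : Cr R i ρ) {μ : Y → ℚ} {a : Γ} (hμ : ∀ y, ρ a y - μ y ∈ R)
    (hμa : ∀ y, μ (i a y) = μ y) (g : Γ) (y : Y) :
    ρ (a⁻¹ * g * a) (i a⁻¹ y) - ρ g y + (μ (i g y) - μ y) ∈ R := by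
  have h1 := h (a⁻¹ * g) a (i a⁻¹ y)
  have h2 := h a⁻¹ g y
  have h3 := neg_of h hμ hμa (i g y)
  have h4 := hμ (i a⁻¹ y)
  rw [ap_inv] at h1
  rw [inv_iv hμa] at h4
  exact mem_eq (R.add_mem (R.add_mem h1 h2) (R.add_mem h3 h4)) (by ring)

end gauge

/-! ## The relations of the braid group -/

section braid

variable {Γ : Type} [Group Γ] (D : Bd Γ)

theorem j_A : D.j lA = D.A := by simp [Bd.j, lA]

theorem j_B : D.j lB = D.B := by simp [Bd.j, lB]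

theorem j_C : D.j lC = D.C := by
  unfold lC Bd.C
  rw [map_mul, map_mul, map_mul, map_inv, map_inv, j_A, j_B]

theorem j_A' : D.j lA' = D.A' := by
  unfold lA' Bd.A'
  rw [map_mul, map_mul, map_inv, j_A, j_B]

theorem a_A' : D.a * D.A' = D.A' * D.a := by
  have h1 : D.a * D.B⁻¹ = D.B⁻¹ * (D.A⁻¹ * D.a) := by
    rw [eq_inv_mul_iff_mul_eq, ← mul_assoc, mul_inv_eq_iff_eq_mul, mul_assoc, D.r3]
    group
  unfold Bd.A'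
  calc D.a * (D.B⁻¹ * D.A * D.B) = D.a * D.B⁻¹ * D.A * D.B := by group
    _ = D.B⁻¹ * (D.A⁻¹ * D.a) * D.A * D.B := by rw [h1]
    _ = D.B⁻¹ * D.A⁻¹ * (D.a * D.A) * D.B := by group
    _ = D.B⁻¹ * D.A⁻¹ * (D.A * D.a) * D.B := by rw [D.r2]
    _ = D.B⁻¹ * (D.a * D.B) := by group
    _ = D.B⁻¹ * (D.A * D.B * D.a) := by rw [D.r3]
    _ = D.B⁻¹ * D.A * D.B * D.a := by group

theorem C_eq : D.C = D.A'⁻¹ * D.A := by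
  unfold Bd.C Bd.A'
  group

theorem a_C : D.a * D.C = D.C * D.a := by
  rw [C_eq]
  have h1 : Commute D.a D.A' := a_A' D
  have h2 : Commute D.a D.A := D.r2
  exact (h1.inv_right).mul_right h2

theorem T_eq : D.T = D.C * D.Ts := by
  unfold Bd.T Bd.C
  exact D.r6

theorem a_T : D.a * D.T = D.T * D.a := by
  rw [T_eq]
  have h1 : Commute D.a D.C := a_C D
  have h2 : Commute D.a D.Ts := D.r7
  exact h1.mul_right h2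

theorem j_pa (w : Fr) : D.j (pa w) * D.a = D.a * D.j w := by
  have h : D.j.comp (pa : MulAut Fr).toMonoidHom = (MulAut.conj D.a).toMonoidHom.comp D.j := by
    apply hom_ext
    · show D.j (fa lA) = D.a * D.j lA * D.a⁻¹
      rw [fa_A, j_A, D.r2]
      group
    · show D.j (fa lB) = D.a * D.j lB * D.a⁻¹
      rw [fa_B, map_mul, j_A, j_B, D.r3]
      group
  have h1 := DFunLike.congr_fun h w
  have h2 : D.j (pa w) = D.a * D.j w * D.a⁻¹ := h1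
  rw [h2]
  group

theorem j_pai (w : Fr) : D.j (pa⁻¹ w) = D.a⁻¹ * D.j w * D.a := by
  have h := j_pa D (pa⁻¹ w)
  rw [MulAut.apply_inv_self] at h
  rw [mul_assoc, h]
  group

end braid

/-! ## The relation in the gauge `T` -/

theorem relT (hInv : InvStmt) (hLft : LftStmt) (hTwe : TweStmt) (hNdi : NdiStmt)
    (hNdj : NdjStmt) (hNdk : NdkStmt) (hOoa : OoaStmt) (hOot : OotStmt)
    {Γ Y : Type} [Group Γ] [Fintype Y] (R : Subring ℚ) (D : Bd Γ)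
    (i : Γ →* Equiv.Perm Y) (hTs : i D.Ts = 1) (ρ₁ ρ₂ : Γ → Y → ℚ) (c₁ : Cr R i ρ₁)
    (c₂ : Cr R i ρ₂) (r₁ r₂ : ℚ) (κ₁ κ₂ μ₁ μ₂ η ζ δ m : Y → ℚ)
    (t₁ : ∀ y, ρ₁ D.Ts y - r₁ ∈ R) (t₂ : ∀ y, ρ₂ D.Ts y - r₂ ∈ R)
    (T₁ : Hl R i ρ₁ D.T κ₁) (k₁ : ∀ y, ρ₁ D.T y - κ₁ y ∈ R) (k₂ : ∀ y, ρ₂ D.T y - κ₂ y ∈ R)
    (κa₁ : ∀ y, κ₁ (i D.a y) = κ₁ y) (κb₁ : ∀ y, κ₁ (i D.b y) = κ₁ y)
    (κa₂ : ∀ y, κ₂ (i D.a y) = κ₂ y) (κb₂ : ∀ y, κ₂ (i D.b y) = κ₂ y)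
    (M₁ : Hl R i ρ₁ D.a μ₁) (M₂ : Hl R i ρ₂ D.a μ₂)
    (f₁ f₂ : Y → ℚ) (F₁ : ∀ y, gt i f₁ ρ₁ D.a y - μ₁ y ∈ R)
    (F₂ : ∀ y, gt i f₂ ρ₂ D.a y - μ₂ y ∈ R)
    (μA₁ : ∀ y, μ₁ (i D.A y) = μ₁ y) (μB₁ : ∀ y, μ₁ (i D.A' y) = μ₁ y)
    (μA₂ : ∀ y, μ₂ (i D.A y) = μ₂ y) (μB₂ : ∀ y, μ₂ (i D.A' y) = μ₂ y)
    (e1 : Ex R i ρ₁ D.a D.a3 (fun y => μ₁ y - η y) (fun y => μ₁ (i D.B⁻¹ y)))
    (e2 : Ex R i ρ₂ D.a D.a3 μ₂ (fun y => μ₂ (i D.B⁻¹ y) - ζ y))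
    (e3 : Ex R i ρ₁ D.a D.T μ₁ (fun y => κ₁ y + δ y)) (e4 : Ex R i ρ₂ D.a D.T m κ₂) :
    ∑ y, (r₁ * r₂ - κ₁ y * κ₂ y) -
      12 * ∑ y, ((μ₁ y - μ₁ (i D.B⁻¹ y)) * (μ₂ y - μ₂ (i D.B⁻¹ y)) + η y * ζ y -
        (μ₂ y - m y) * δ y + (r₁ - κ₁ y) * μ₂ y + μ₁ y * (r₂ - κ₂ y)) ∈ R := by
  have c₁' := gt_cr c₁ f₁
  have c₂' := gt_cr c₂ f₂
  -- the action of `T` is the action of `C`
  have hiT : i D.T = i D.C := by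
    rw [T_eq, map_mul, hTs, mul_one]
  have μC₁ : ∀ y, μ₁ (i D.C y) = μ₁ y := by
    rw [C_eq]; exact inv_mu (inv_iv μB₁) μA₁
  have μC₂ : ∀ y, μ₂ (i D.C y) = μ₂ y := by
    rw [C_eq]; exact inv_mu (inv_iv μB₂) μA₂
  have κT₂ : ∀ y, κ₂ (i D.T y) = κ₂ y := inv_pw (inv_mu κa₂ κb₂) 6
  -- invariant lifts
  obtain ⟨ξ, ξa, ξr⟩ := hInv Y R (i D.a) (gt i f₂ ρ₂ D.A)
    (inv_comm c₂' F₂ D.r2 μA₂)
  have aAi : D.a * D.A'⁻¹ = D.A'⁻¹ * D.a := by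
    have h : Commute D.a D.A' := a_A' D
    exact h.inv_right
  obtain ⟨Ψ, Ψa, Ψr⟩ := hInv Y R (i D.a) (gt i f₁ ρ₁ D.A'⁻¹)
    (inv_comm c₁' F₁ aAi (inv_iv μB₁))
  obtain ⟨Δ, Δa, Δr⟩ := hInv Y R (i D.a) (fun y => gt i f₁ ρ₁ D.C y - (κ₁ y - r₁)) (by
    intro y
    have h1 := inv_comm c₁' F₁ (a_C D) μC₁ y
    refine mem_eq h1 ?_
    simp only [κa₁]
    ring)
  have aTi : D.T * D.a⁻¹ = D.a⁻¹ * D.T := by
    have h : Commute D.a D.T := a_T D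
    exact h.inv_left.symm
  obtain ⟨g₂, gC, gr⟩ := hInv Y R (i D.C) (ρ₂ D.a⁻¹) (by
    intro y
    have h1 := inv_comm c₂ k₂ aTi (inv_iv κa₂) y
    rw [hiT] at h1
    exact h1)
  -- exact cocycles of the free group
  have iA : (i.comp D.j) lA = i D.A := by rw [MonoidHom.comp_apply, j_A]
  have iB : (i.comp D.j) lB = i D.B := by rw [MonoidHom.comp_apply, j_B]
  have iC : (i.comp D.j) lC = i D.C := by rw [MonoidHom.comp_apply, j_C]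
  have iA' : (i.comp D.j) lA' = i D.A' := by rw [MonoidHom.comp_apply, j_A']
  obtain ⟨x₁, X₁, x₁A, x₁B⟩ := (hLft Y (i.comp D.j)).1 (ρ₁ D.A) (ρ₁ D.B)
  obtain ⟨x₂, X₂, x₂A, x₂B⟩ := (hLft Y (i.comp D.j)).1
    (fun y => ξ y - f₂ (i D.A y) + f₂ y) (ρ₂ D.B)
  have cj : ∀ ρ : Γ → Y → ℚ, Cr R i ρ → Cr R (i.comp D.j) (fun w y => ρ (D.j w) y) := by
    intro ρ hρ g k y
    have h1 := hρ (D.j g) (D.j k) y
    rw [← map_mul] at h1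
    exact h1
  have xc : ∀ x : Fr → Y → ℚ, Cx (i.comp D.j) x → Cr R (i.comp D.j) x := by
    intro x hx g k y
    rw [hx g k y]
    exact mem_eq R.zero_mem (by ring)
  have q₁A : ∀ y, x₁ lA y - ρ₁ D.A y ∈ R := fun y => by
    rw [x₁A]; exact mem_eq R.zero_mem (by ring)
  have q₁B : ∀ y, x₁ lB y - ρ₁ D.B y ∈ R := fun y => by
    rw [x₁B]; exact mem_eq R.zero_mem (by ring)
  have q₂A : ∀ y, x₂ lA y - ρ₂ D.A y ∈ R := fun y => by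
    rw [x₂A]
    refine mem_eq (ξr y) ?_
    unfold gt
    ring
  have q₂B : ∀ y, x₂ lB y - ρ₂ D.B y ∈ R := fun y => by
    rw [x₂B]; exact mem_eq R.zero_mem (by ring)
  have w₁ : ∀ w y, x₁ w y - ρ₁ (D.j w) y ∈ R :=
    (hLft Y (i.comp D.j)).2.2 R x₁ _ (xc x₁ X₁) (cj ρ₁ c₁)
      (fun y => by simp only [j_A]; exact q₁A y) (fun y => by simp only [j_B]; exact q₁B y)
  have w₂ : ∀ w y, x₂ w y - ρ₂ (D.j w) y ∈ R :=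
    (hLft Y (i.comp D.j)).2.2 R x₂ _ (xc x₂ X₂) (cj ρ₂ c₂)
      (fun y => by simp only [j_A]; exact q₂A y) (fun y => by simp only [j_B]; exact q₂B y)
  -- `x'_k ≡ ρ'_k`
  have v₁ : ∀ w y, x₁ w y + dl (i.comp D.j) f₁ w y - gt i f₁ ρ₁ (D.j w) y ∈ R := by
    intro w y
    refine mem_eq (w₁ w y) ?_
    unfold gt dl
    rw [MonoidHom.comp_apply]
    ring
  have v₂ : ∀ w y, x₂ w y + dl (i.comp D.j) f₂ w y - gt i f₂ ρ₂ (D.j w) y ∈ R := by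
    intro w y
    refine mem_eq (w₂ w y) ?_
    unfold gt dl
    rw [MonoidHom.comp_apply]
    ring
  have hxi : ∀ y, x₂ lA y + dl (i.comp D.j) f₂ lA y = ξ y := by
    intro y
    unfold dl
    rw [x₂A, iA]
    ring
  -- TWE
  obtain ⟨hBs, hτ⟩ := hTwe Γ Y R D i hTs ρ₁ ρ₂ c₁ c₂ r₁ r₂ κ₁ κ₂ t₁ t₂ k₁ k₂ κa₁ κb₁ κa₂ κb₂
    x₁ x₂ X₁ X₂ q₁A q₁B q₂A q₂B
  have n₁ : ∀ y, gt i f₁ ρ₁ D.a⁻¹ y + μ₁ y ∈ R := neg_of c₁' F₁ M₁.inv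
  have n₂ : ∀ y, gt i f₂ ρ₂ D.a⁻¹ y + μ₂ y ∈ R := neg_of c₂' F₂ M₂.inv
  have hπ : ∀ y, (i D.a)⁻¹ y = i D.a⁻¹ y := fun y => by rw [map_inv]
  have hτ' := hτ (fun y => - μ₁ y - f₁ ((i D.a)⁻¹ y) + f₁ y) g₂ (by
    intro y
    refine mem_eq (R.neg_mem (n₁ y)) ?_
    simp only [hπ]
    unfold gt
    ring) gr gC
  -- the node data
  have hNd : Nd R (i.comp D.j) x₁ x₂ (fun y => κ₁ y - r₁) (fun y => κ₂ y - r₂) (i D.a)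
      f₁ f₂ μ₁ μ₂ g₂ := by
    refine ⟨?_, ?_, ?_, M₁.inv, M₂.inv, ?_, ?_, ?_, ?_, ?_, ?_, ?_, ?_, ?_⟩
    · intro w y
      rw [MonoidHom.comp_apply, MonoidHom.comp_apply, ← Equiv.Perm.mul_apply,
        ← Equiv.Perm.mul_apply, ← map_mul, ← map_mul, j_pa]
    · intro y; simp only [κa₁]
    · intro y; simp only [κa₂]
    · intro y; rw [iA]; exact μA₁ y
    · intro y; rw [iA]; exact μA₂ y
    · intro y; rw [iA']; exact μB₁ y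
    · intro y; rw [iA']; exact μB₂ y
    · intro w y
      have h1 := transport c₁' F₁ M₁.inv (D.j w) y
      have h2 := v₁ (pa⁻¹ w) ((i D.a)⁻¹ y)
      have h3 := v₁ w y
      rw [j_pai, hπ] at h2
      rw [hπ]
      refine mem_eq (R.add_mem (R.sub_mem h2 h3) h1) ?_
      have h4 : dl (i.comp D.j) μ₁ w y = μ₁ (i (D.j w) y) - μ₁ y := rfl
      rw [h4]
      ring
    · intro w y
      have h1 := transport c₂' F₂ M₂.inv (D.j w) y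
      have h2 := v₂ (pa⁻¹ w) ((i D.a)⁻¹ y)
      have h3 := v₂ w y
      rw [j_pai, hπ] at h2
      rw [hπ]
      refine mem_eq (R.add_mem (R.sub_mem h2 h3) h1) ?_
      have h4 : dl (i.comp D.j) μ₂ w y = μ₂ (i (D.j w) y) - μ₂ y := rfl
      rw [h4]
      ring
    · intro y; rw [iC]; exact gC y
    · intro y
      refine mem_eq (R.add_mem (gr y) (n₂ y)) ?_
      rw [hπ]
      unfold gt
      ring
    · intro y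
      rw [hxi, hxi]
      exact ξa y
  have hI := hNdi Y R (i.comp D.j) x₁ x₂ _ _ hBs (i D.a) f₁ f₂ μ₁ μ₂ g₂ hNd Δ Δa (by
    intro y
    have h1 := v₁ lC y
    rw [j_C] at h1
    refine mem_eq (R.sub_mem (Δr y) h1) ?_
    ring)
  have hJ := hNdj Y R (i.comp D.j) x₁ x₂ _ _ hBs (i D.a) f₁ f₂ μ₁ μ₂ g₂ hNd Ψ Ψa (by
    intro y
    have h1 := v₁ lA'⁻¹ y
    rw [map_inv, j_A'] at h1
    exact mem_eq (R.sub_mem (Ψr y) h1) (by ring))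
  obtain ⟨hK1, hK2⟩ := hNdk Y R (i.comp D.j) x₁ x₂ _ _ hBs (i D.a) f₁ f₂ μ₁ μ₂ g₂ hNd
  have hK2' := hK2 Δ Δa
  simp only [hxi, iB] at hJ hK1
  have hBi : ∀ y, (i D.B)⁻¹ y = i D.B⁻¹ y := fun y => by rw [map_inv]
  simp only [hBi] at hK1
  -- orbits
  have hA := hOoa Γ Y R D i (gt i f₁ ρ₁) (gt i f₂ ρ₂) c₁' c₂' μ₁ μ₂ M₁.inv μA₁ μB₁ M₂.inv
    μA₂ μB₂ F₁ F₂ ξ Ψ ξa (fun y => mem_eq (R.neg_mem (ξr y)) (by ring)) Ψa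
    (fun y => mem_eq (R.neg_mem (Ψr y)) (by ring)) η ζ (gt_ex e1 f₁) (gt_ex e2 f₂)
  have hTT := hOot Γ Y R D i (gt i f₁ ρ₁) ρ₂ c₁' c₂ μ₁ μ₂ κ₁ κ₂ M₁.inv
    (by rw [hiT]; exact μC₁) (by rw [hiT]; exact μC₂) κa₁ κa₂ κT₂ F₁ M₂ (gt_hl T₁ f₁) k₂ Δ g₂ Δa
    (by
      intro y
      have h1 := c₁' D.C D.Ts y
      rw [← T_eq, hTs, Equiv.Perm.one_apply] at h1
      have h2 : gt i f₁ ρ₁ D.Ts y = ρ₁ D.Ts y := gt_fix f₁ (by rw [hTs, Equiv.Perm.one_apply])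
      rw [h2] at h1
      exact mem_eq (R.sub_mem (R.add_mem h1 (t₁ y)) (Δr y)) (by ring))
    (by rw [hiT]; exact gC) (fun y => mem_eq (R.neg_mem (gr y)) (by ring)) δ m (gt_ex e3 f₁) e4
  -- the end
  rw [hK1, hK2'] at hI
  have hfin := R.add_mem (R.add_mem hI hJ) (R.add_mem hA hTT)
  have h12 : (12 : ℚ) ∈ R := by
    have := natCast_mem R 12
    exact_mod_cast this
  have h13 := R.sub_mem hτ' (R.mul_mem h12 hfin)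
  refine mem_eq h13 ?_
  have s1 : ∑ y, (κ₁ y * κ₂ y - r₁ * r₂) = - ∑ y, (r₁ * r₂ - κ₁ y * κ₂ y) := by
    rw [← Finset.sum_neg_distrib]
    exact Finset.sum_congr rfl fun y _ => by ring
  have s2 : ∑ y, ((μ₁ y - μ₁ (i D.B⁻¹ y)) * (μ₂ y - μ₂ (i D.B⁻¹ y)) + η y * ζ y -
        (μ₂ y - m y) * δ y + (r₁ - κ₁ y) * μ₂ y + μ₁ y * (r₂ - κ₂ y)) =
      ∑ y, ((μ₁ y - μ₁ (i D.B⁻¹ y)) * (μ₂ y - μ₂ (i D.B⁻¹ y)) + η y * ζ y) -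
        ∑ y, (μ₂ y - m y) * δ y - ∑ y, (κ₁ y - r₁) * μ₂ y - ∑ y, μ₁ y * (κ₂ y - r₂) := by
    rw [← Finset.sum_sub_distrib, ← Finset.sum_sub_distrib, ← Finset.sum_sub_distrib]
    exact Finset.sum_congr rfl fun y _ => by ring
  rw [s1, s2]
  ring

theorem rel (hGau : GauStmt) (hInv : InvStmt) (hLft : LftStmt) (hTwe : TweStmt)
    (hNdi : NdiStmt) (hNdj : NdjStmt) (hNdk : NdkStmt) (hOoa : OoaStmt) (hOot : OotStmt) :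
    RelStmt := by
  intro Γ Y _ _ R D i hTs ρ₁ ρ₂ c₁ c₂ r₁ r₂ κ₁ κ₂ μ₁ μ₂ η ζ δ m t₁ t₂ T₁ T₂ κa₁ κb₁ κa₂ κb₂
    M₁ M₂ μA₁ μB₁ μA₂ μB₂ e1 e2 e3 e4
  obtain ⟨p₁, P₁⟩ := hGau Γ Y R i ρ₁ c₁ D.T κ₁ T₁
  obtain ⟨p₂, P₂⟩ := hGau Γ Y R i ρ₂ c₂ D.T κ₂ T₂
  have hfix : ∀ y, i D.Ts y = y := fun y => by rw [hTs, Equiv.Perm.one_apply]
  have d₁ := gt_cr c₁ p₁
  have d₂ := gt_cr c₂ p₂
  have N₁ := gt_hl M₁ p₁
  have N₂ := gt_hl M₂ p₂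
  obtain ⟨f₁, F₁⟩ := hGau Γ Y R i (gt i p₁ ρ₁) d₁ D.a μ₁ N₁
  obtain ⟨f₂, F₂⟩ := hGau Γ Y R i (gt i p₂ ρ₂) d₂ D.a μ₂ N₂
  exact relT hInv hLft hTwe hNdi hNdj hNdk hOoa hOot R D i hTs (gt i p₁ ρ₁) (gt i p₂ ρ₂) d₁ d₂
    r₁ r₂ κ₁ κ₂ μ₁ μ₂ η ζ δ m (fun y => by rw [gt_fix p₁ (hfix y)]; exact t₁ y)
    (fun y => by rw [gt_fix p₂ (hfix y)]; exact t₂ y) (gt_hl T₁ p₁)
    (fun y => mem_eq (P₁ y) (by unfold gt; ring)) (fun y => mem_eq (P₂ y) (by unfold gt; ring))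
    κa₁ κb₁ κa₂ κb₂ N₁ N₂ f₁ f₂ (fun y => mem_eq (F₁ y) (by rw [gt]))
    (fun y => mem_eq (F₂ y) (by rw [gt])) μA₁ μB₁ μA₂ μB₂ (gt_ex e1 p₁) (gt_ex e2 p₂)
    (gt_ex e3 p₁) (gt_ex e4 p₂)

end Pool.Agent.SOR.H44
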